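import Pool.Agent.Q145.LS.Stm
import Pool.Agent.Q111.SZ.CRT

/-!
# Project LS (helper145), job CRTS: from one prime to squarefree moduli

Adapted from `Pool/Agent/Q111/SZ/CRT.lean`.
-/

set_option autoImplicit false
set_option linter.unusedSectionVars false

namespace Pool.Agent.Q211.LS

open Finset Pool.Agent.Q145.SZ Pool.Agent.Q145.LS
open Pool.Agent.Q111.SZ (mem_Us' unit_iff sum_Us_prod card_Us_prod C18_mul C18_nonneg)

theorem mem_GS {W : ℕ} [NeZero W] {K : ℕ} (u b : Fin K → ZMod W) (x : ZMod W) :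
    x ∈ GS u b ↔ IsUnit x ∧ ∀ i, IsUnit (u i * x + b i) := by
  classical
  unfold GS
  rw [mem_filter]
  simp

/-- the inequality for the modulus `W` -/
def PPs (W : ℕ) : Prop := ∀ [NeZero W] (k : ℕ) (u c : Fin k → ZMod W) (v n m : ZMod W),
  n ∈ GS u c → m ∈ GS u c →
  ((Us (v * n) (v * m)).card : ℝ) * ∑ β ∈ Us (v * n) (v * m),
    (((GS (Fin.cons v u : Fin (k + 1) → ZMod W) (Fin.cons β c)).card : ℝ) ^ 4)⁻¹ ≤
    C18 W * (∑ β ∈ Us (v * n) (v * m),
      (((GS (Fin.cons v u : Fin (k + 1) → ZMod W) (Fin.cons β c)).card : ℝ) ^ 2)⁻¹) ^ 2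

section prod

variable {M N : ℕ} [NeZero M] [NeZero N] [NeZero (M * N)] (h : M.Coprime N)

theorem mem_GS_prod {K : ℕ} (u b : Fin K → ZMod (M * N)) (x : ZMod (M * N)) :
    x ∈ GS u b ↔ (ZMod.chineseRemainder h x).1 ∈
        GS (fun i => (ZMod.chineseRemainder h (u i)).1) (fun i => (ZMod.chineseRemainder h (b i)).1) ∧
      (ZMod.chineseRemainder h x).2 ∈
        GS (fun i => (ZMod.chineseRemainder h (u i)).2) (fun i => (ZMod.chineseRemainder h (b i)).2) := by
  rw [mem_GS, mem_GS, mem_GS, unit_iff h]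
  have hP : ∀ i, IsUnit (u i * x + b i) ↔
      IsUnit ((ZMod.chineseRemainder h (u i)).1 * (ZMod.chineseRemainder h x).1 +
        (ZMod.chineseRemainder h (b i)).1) ∧
      IsUnit ((ZMod.chineseRemainder h (u i)).2 * (ZMod.chineseRemainder h x).2 +
        (ZMod.chineseRemainder h (b i)).2) := by
    intro i
    rw [unit_iff h, map_add, map_mul]
    rfl
  simp only [hP, forall_and]
  tauto

theorem card_GS_prod {K : ℕ} (u b : Fin K → ZMod (M * N)) :
    (GS u b).card = (GS (fun i => (ZMod.chineseRemainder h (u i)).1)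
        (fun i => (ZMod.chineseRemainder h (b i)).1)).card *
      (GS (fun i => (ZMod.chineseRemainder h (u i)).2)
        (fun i => (ZMod.chineseRemainder h (b i)).2)).card := by
  classical
  rw [← card_product]
  refine Finset.card_bij (fun x _ => ZMod.chineseRemainder h x) ?_ ?_ ?_
  · intro x hx
    rw [mem_product]
    exact (mem_GS_prod h u b x).mp hx
  · intro x _ y _ hxy
    exact (ZMod.chineseRemainder h).injective hxy
  · intro y hy
    rw [mem_product] at hy
    refine ⟨(ZMod.chineseRemainder h).symm y, ?_, RingEquiv.apply_symm_apply _ y⟩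
    rw [mem_GS_prod h, RingEquiv.apply_symm_apply]
    exact hy

theorem cons_fst {k : ℕ} (c : Fin k → ZMod (M * N)) (β : ZMod (M * N)) :
    (fun i => (ZMod.chineseRemainder h ((Fin.cons β c : Fin (k + 1) → ZMod (M * N)) i)).1) =
      (Fin.cons (ZMod.chineseRemainder h β).1 (fun i => (ZMod.chineseRemainder h (c i)).1) :
        Fin (k + 1) → ZMod M) := by
  funext i
  refine Fin.cases ?_ (fun j => ?_) i
  · rfl
  · rfl

theorem cons_snd {k : ℕ} (c : Fin k → ZMod (M * N)) (β : ZMod (M * N)) :
    (fun i => (ZMod.chineseRemainder h ((Fin.cons β c : Fin (k + 1) → ZMod (M * N)) i)).2) =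
      (Fin.cons (ZMod.chineseRemainder h β).2 (fun i => (ZMod.chineseRemainder h (c i)).2) :
        Fin (k + 1) → ZMod N) := by
  funext i
  refine Fin.cases ?_ (fun j => ?_) i
  · rfl
  · rfl

theorem card_cons {k : ℕ} (u c : Fin k → ZMod (M * N)) (v β : ZMod (M * N)) :
    (GS (Fin.cons v u : Fin (k + 1) → ZMod (M * N)) (Fin.cons β c)).card =
      (GS (Fin.cons (ZMod.chineseRemainder h v).1 (fun i => (ZMod.chineseRemainder h (u i)).1) :
          Fin (k + 1) → ZMod M)
        (Fin.cons (ZMod.chineseRemainder h β).1 (fun i => (ZMod.chineseRemainder h (c i)).1))).card *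
      (GS (Fin.cons (ZMod.chineseRemainder h v).2 (fun i => (ZMod.chineseRemainder h (u i)).2) :
          Fin (k + 1) → ZMod N)
        (Fin.cons (ZMod.chineseRemainder h β).2 (fun i => (ZMod.chineseRemainder h (c i)).2))).card := by
  rw [card_GS_prod h, cons_fst h u v, cons_fst h c β, cons_snd h u v, cons_snd h c β]

theorem sum_pow_prod {k : ℕ} (u c : Fin k → ZMod (M * N)) (v n m : ZMod (M * N)) (e : ℕ) :
    ∑ β ∈ Us (v * n) (v * m), (((GS (Fin.cons v u : Fin (k + 1) → ZMod (M * N)) (Fin.cons β c)).card : ℝ) ^ e)⁻¹ =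
      (∑ β ∈ Us ((ZMod.chineseRemainder h v).1 * (ZMod.chineseRemainder h n).1)
          ((ZMod.chineseRemainder h v).1 * (ZMod.chineseRemainder h m).1),
        (((GS (Fin.cons (ZMod.chineseRemainder h v).1 (fun i => (ZMod.chineseRemainder h (u i)).1) :
          Fin (k + 1) → ZMod M) (Fin.cons β (fun i => (ZMod.chineseRemainder h (c i)).1))).card : ℝ) ^ e)⁻¹) *
      ∑ β ∈ Us ((ZMod.chineseRemainder h v).2 * (ZMod.chineseRemainder h n).2)
          ((ZMod.chineseRemainder h v).2 * (ZMod.chineseRemainder h m).2),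
        (((GS (Fin.cons (ZMod.chineseRemainder h v).2 (fun i => (ZMod.chineseRemainder h (u i)).2) :
          Fin (k + 1) → ZMod N) (Fin.cons β (fun i => (ZMod.chineseRemainder h (c i)).2))).card : ℝ) ^ e)⁻¹ := by
  have h1 := sum_Us_prod h (v * n) (v * m) (fun β => (((GS (Fin.cons (ZMod.chineseRemainder h v).1
      (fun i => (ZMod.chineseRemainder h (u i)).1) : Fin (k + 1) → ZMod M)
      (Fin.cons β (fun i => (ZMod.chineseRemainder h (c i)).1))).card : ℝ) ^ e)⁻¹)
    (fun β => (((GS (Fin.cons (ZMod.chineseRemainder h v).2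
      (fun i => (ZMod.chineseRemainder h (u i)).2) : Fin (k + 1) → ZMod N)
      (Fin.cons β (fun i => (ZMod.chineseRemainder h (c i)).2))).card : ℝ) ^ e)⁻¹)
  rw [map_mul, map_mul] at h1
  refine Eq.trans ?_ h1
  refine sum_congr rfl fun β _ => ?_
  rw [card_cons h, Nat.cast_mul, mul_pow, mul_inv]

theorem card_Us_prod' (v n m : ZMod (M * N)) : (Us (v * n) (v * m)).card =
    (Us ((ZMod.chineseRemainder h v).1 * (ZMod.chineseRemainder h n).1)
          ((ZMod.chineseRemainder h v).1 * (ZMod.chineseRemainder h m).1)).card *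
    (Us ((ZMod.chineseRemainder h v).2 * (ZMod.chineseRemainder h n).2)
          ((ZMod.chineseRemainder h v).2 * (ZMod.chineseRemainder h m).2)).card := by
  have h1 := card_Us_prod h (v * n) (v * m)
  rw [map_mul, map_mul] at h1
  exact h1

include h in
theorem PPs_mul (hM : PPs M) (hN : PPs N) : PPs (M * N) := by
  intro _ k u c v n m hn hm
  rw [sum_pow_prod h u c v n m 4, sum_pow_prod h u c v n m 2, card_Us_prod' h v n m, C18_mul h]
  obtain ⟨n1, n2⟩ := (mem_GS_prod h u c n).mp hn
  obtain ⟨m1, m2⟩ := (mem_GS_prod h u c m).mp hm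
  have h1 := hM k _ _ (ZMod.chineseRemainder h v).1 _ _ n1 m1
  have h2 := hN k _ _ (ZMod.chineseRemainder h v).2 _ _ n2 m2
  have h3 := mul_le_mul h1 h2 (mul_nonneg (Nat.cast_nonneg _) (sum_nonneg fun _ _ => by positivity))
    (mul_nonneg (C18_nonneg M) (sq_nonneg _))
  refine le_trans (le_of_eq ?_) (h3.trans (le_of_eq ?_))
  · push_cast
    ring
  · ring

end prod

theorem PPs_one : PPs 1 := by
  intro _ k u c v n m hn hm
  have hU : (Us (v * n) (v * m)).card = 1 := by
    rw [card_eq_one]
    refine ⟨0, ?_⟩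
    ext β
    rw [mem_singleton, mem_Us']
    exact ⟨fun _ => Subsingleton.elim _ _,
      fun _ => ⟨isUnit_of_subsingleton _, isUnit_of_subsingleton _⟩⟩
  have hG : ∀ u b : Fin (k + 1) → ZMod 1, (GS u b).card = 1 := by
    intro u b
    rw [card_eq_one]
    refine ⟨0, ?_⟩
    ext x
    rw [mem_singleton, mem_GS]
    exact ⟨fun _ => Subsingleton.elim _ _, fun _ => ⟨isUnit_of_subsingleton _, fun _ => isUnit_of_subsingleton _⟩⟩
  simp only [hG, sum_const, hU]
  unfold C18
  simp

/-- job CRTS -/
theorem t_CRTS : S_LOCS → S_CRTS := by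
  intro hloc W _ hsq
  have key : ∀ W : ℕ, Squarefree W → PPs W := by
    intro W
    induction W using Nat.recOnPosPrimePosCoprime with
    | prime_pow p n hp hn =>
      intro hsq
      have hn1 : n = 1 := by
        by_contra hne
        have h2 : 2 ≤ n := by omega
        have h3 : p * p ∣ p ^ n := by
          rw [← pow_two]
          exact pow_dvd_pow p h2
        exact hp.one_lt.ne' (Nat.isUnit_iff.mp (hsq p h3))
      subst hn1
      rw [pow_one]
      have : Fact p.Prime := ⟨hp⟩
      intro _ k u c v n m hn hm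
      have h4 := hloc p k u c v n m hn hm
      have h5 : C18 p = 1 + 18 / (p : ℝ) := by
        unfold C18
        rw [hp.primeFactors, prod_singleton]
      rw [h5]
      exact h4
    | zero => intro h; exact absurd h not_squarefree_zero
    | one => intro _; exact PPs_one
    | coprime a b ha hb hab iha ihb =>
      intro hsq
      have : NeZero a := ⟨by omega⟩
      have : NeZero b := ⟨by omega⟩
      have : NeZero (a * b) := ⟨mul_ne_zero (NeZero.ne a) (NeZero.ne b)⟩
      have h1 : PPs a := iha hsq.of_mul_left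
      have h2 : PPs b := ihb hsq.of_mul_right
      intro _
      exact PPs_mul hab h1 h2
  intro k u c v n m hn hm
  exact key W hsq k u c v n m hn hm

end Pool.Agent.Q211.LS
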