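import Pool.Agent.Q145.LS.Stm

/-!
# Project LS (helper145), job HSS: the weighted sum over pairs
-/

set_option autoImplicit false

namespace Pool.Agent.Q211.LS.Hss

open Finset Filter Pool.Agent.Q145.SZ Pool.Agent.Q145.LS

theorem wt_nonneg (u : ℕ) : 0 ≤ wt u := by
  unfold wt
  split_ifs
  · exact Real.log_natCast_nonneg _
  · exact le_rfl

theorem mem_uni {W : ℕ} [NeZero W] {c : ZMod W} : c ∈ uni W ↔ IsUnit c := by
  classical
  unfold uni
  simp

/-- a prime larger than `W` is a unit -/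
theorem wt_zero {W : ℕ} [NeZero W] {n : ℕ} (h : W < n) (hn : (n : ZMod W) ∉ uni W) : wt n = 0 := by
  unfold wt
  rw [if_neg]
  intro hp
  apply hn
  rw [mem_uni, ZMod.isUnit_iff_coprime]
  rw [hp.coprime_iff_not_dvd]
  intro hd
  have := Nat.le_of_dvd (Nat.pos_of_ne_zero (NeZero.ne W)) hd
  omega

/-- job HSS -/
theorem t_HSS : S_HSS := by
  classical
  intro hHSB hYNG
  obtain ⟨C, z₀, hC, hH⟩ := hHSB
  refine ⟨C, z₀, hC, ?_⟩
  intro z X K ε hz hK hX hPW hε hε1 hms Q hQ0 hQ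
  have hW0 : 0 < PW z := Nat.pos_of_ne_zero (NeZero.ne (PW z))
  have hX1 : 1 ≤ X := by omega
  obtain ⟨f, hf⟩ : ∃ f : ℕ → ℕ → ℝ, f = fun n m => wt n * wt m * SP z X (dst n m) ^ K := ⟨_, rfl⟩
  -- split into classes
  have h1 : ∑ n ∈ Ioc X (2 * X), ∑ m ∈ (Ioc X (2 * X)).filter (fun m => m ≠ n),
      wt n * wt m * SP z X (dst n m) ^ K * Q n m =
      ∑ c : ZMod (PW z), ∑ d : ZMod (PW z), Q c d *
        ∑ n ∈ (Ioc X (2 * X)).filter (fun n : ℕ => (n : ZMod (PW z)) = c),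
          ∑ m ∈ (Ioc X (2 * X)).filter (fun m : ℕ => (m : ZMod (PW z)) = d ∧ m ≠ n), f n m := by
    rw [← Finset.sum_fiberwise (Ioc X (2 * X)) (fun n : ℕ => (n : ZMod (PW z)))]
    refine Finset.sum_congr rfl fun c _ => ?_
    have h2 : ∀ n ∈ (Ioc X (2 * X)).filter (fun n : ℕ => (n : ZMod (PW z)) = c),
        ∑ m ∈ (Ioc X (2 * X)).filter (fun m => m ≠ n), wt n * wt m * SP z X (dst n m) ^ K * Q n m =
        ∑ d : ZMod (PW z), Q c d *
          ∑ m ∈ (Ioc X (2 * X)).filter (fun m : ℕ => (m : ZMod (PW z)) = d ∧ m ≠ n), f n m := by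
      intro n hn
      rw [Finset.mem_filter] at hn
      rw [← Finset.sum_fiberwise ((Ioc X (2 * X)).filter (fun m => m ≠ n)) (fun m : ℕ => (m : ZMod (PW z)))]
      refine Finset.sum_congr rfl fun d _ => ?_
      rw [Finset.mul_sum, Finset.filter_filter]
      have h3 : (Ioc X (2 * X)).filter (fun m : ℕ => m ≠ n ∧ (m : ZMod (PW z)) = d) =
          (Ioc X (2 * X)).filter (fun m : ℕ => (m : ZMod (PW z)) = d ∧ m ≠ n) :=
        Finset.filter_congr fun m _ => and_comm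
      rw [h3]
      refine Finset.sum_congr rfl fun m hm => ?_
      rw [Finset.mem_filter] at hm
      rw [hf, hn.2, hm.2.1]
      ring
    rw [Finset.sum_congr rfl h2, Finset.sum_comm]
    refine Finset.sum_congr rfl fun d _ => ?_
    rw [Finset.mul_sum]
  rw [h1]
  -- non-units
  have h2 : ∑ c : ZMod (PW z), ∑ d : ZMod (PW z), Q c d *
        ∑ n ∈ (Ioc X (2 * X)).filter (fun n : ℕ => (n : ZMod (PW z)) = c),
          ∑ m ∈ (Ioc X (2 * X)).filter (fun m : ℕ => (m : ZMod (PW z)) = d ∧ m ≠ n), f n m =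
      ∑ c ∈ uni (PW z), ∑ d ∈ uni (PW z), Q c d *
        ∑ n ∈ (Ioc X (2 * X)).filter (fun n : ℕ => (n : ZMod (PW z)) = c),
          ∑ m ∈ (Ioc X (2 * X)).filter (fun m : ℕ => (m : ZMod (PW z)) = d ∧ m ≠ n), f n m := by
    symm
    have h3 : ∀ c : ZMod (PW z), ∀ d ∈ (univ : Finset (ZMod (PW z))), d ∉ uni (PW z) → Q c d *
        ∑ n ∈ (Ioc X (2 * X)).filter (fun n : ℕ => (n : ZMod (PW z)) = c),
          ∑ m ∈ (Ioc X (2 * X)).filter (fun m : ℕ => (m : ZMod (PW z)) = d ∧ m ≠ n), f n m = 0 := by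
      intro c d _ hd
      rw [Finset.sum_eq_zero, mul_zero]
      intro n _
      apply Finset.sum_eq_zero
      intro m hm
      rw [Finset.mem_filter, Finset.mem_Ioc] at hm
      have h4 : wt m = 0 := wt_zero (W := PW z) (by omega) (by rw [hm.2.1]; exact hd)
      rw [hf]
      simp only
      rw [h4]
      ring
    have h4 : ∀ c ∈ (univ : Finset (ZMod (PW z))), c ∉ uni (PW z) → ∑ d ∈ uni (PW z), Q c d *
        ∑ n ∈ (Ioc X (2 * X)).filter (fun n : ℕ => (n : ZMod (PW z)) = c),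
          ∑ m ∈ (Ioc X (2 * X)).filter (fun m : ℕ => (m : ZMod (PW z)) = d ∧ m ≠ n), f n m = 0 := by
      intro c _ hc
      apply Finset.sum_eq_zero
      intro d _
      rw [Finset.sum_eq_zero, mul_zero]
      intro n hn
      apply Finset.sum_eq_zero
      intro m _
      rw [Finset.mem_filter, Finset.mem_Ioc] at hn
      have h4 : wt n = 0 := wt_zero (W := PW z) (by omega) (by rw [hn.2]; exact hc)
      rw [hf]
      simp only
      rw [h4]
      ring
    rw [Finset.sum_subset (Finset.subset_univ _) h4]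
    refine Finset.sum_congr rfl fun c _ => ?_
    exact Finset.sum_subset (Finset.subset_univ _) (h3 c)
  rw [h2]
  have h3 : ∀ c ∈ uni (PW z), ∀ d ∈ uni (PW z), Q c d *
        ∑ n ∈ (Ioc X (2 * X)).filter (fun n : ℕ => (n : ZMod (PW z)) = c),
          ∑ m ∈ (Ioc X (2 * X)).filter (fun m : ℕ => (m : ZMod (PW z)) = d ∧ m ≠ n), f n m ≤
      Q c d * (th X c * th X d) + ((X : ℝ) / Nat.totient (PW z)) ^ 2 * (C / Real.log z) * Q c d := by
    intro c hc d hd
    have h4 := mul_le_mul_of_nonneg_left (hH z X K hz hK hX c hc d hd) (hQ0 c d)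
    rw [hf]
    linarith
  refine (Finset.sum_le_sum fun c hc => Finset.sum_le_sum fun d hd => h3 c hc d hd).trans ?_
  have h4 := hYNG (PW z) X ε Q hX1 hε hε1 hQ0 hQ hms
  simp only [Finset.sum_add_distrib, ← Finset.mul_sum]
  linarith

end Pool.Agent.Q211.LS.Hss
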