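import Pool.Agent.Q145.LS.Stm

/-!
# Project LS (helper145), job LMS: the local moments
-/

set_option autoImplicit false

namespace Pool.Agent.Q211.LS.Lms

open Finset Filter Pool.Agent.Q145.SZ Pool.Agent.Q145.LS

variable {p : ℕ} [Fact p.Prime]

/-- from tuples of residues to tuples of classes -/
theorem sum_range (M : ℕ) (Φ : (Fin M → ZMod p) → ℝ) :
    ∑ t ∈ Fintype.piFinset (fun _ : Fin M => range p), Φ (fun i => (t i : ZMod p)) = ∑ T : Fin M → ZMod p, Φ T := by
  classical
  refine Finset.sum_nbij' (fun t i => (t i : ZMod p)) (fun T i => (T i).val) ?_ ?_ ?_ ?_ ?_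
  · intro t _
    exact Finset.mem_univ _
  · intro T _
    rw [Fintype.mem_piFinset]
    intro i
    rw [Finset.mem_range]
    exact ZMod.val_lt _
  · intro t ht
    rw [Fintype.mem_piFinset] at ht
    funext i
    simp only
    rw [ZMod.val_natCast, Nat.mod_eq_of_lt (Finset.mem_range.1 (ht i))]
  · intro T _
    funext i
    simp
  · intro t _
    rfl

/-- the number of different values -/
noncomputable def NN {M : ℕ} (T : Fin M → ZMod p) : ℕ := (univ.image T).card

theorem nu_eq {M : ℕ} (t : Fin M → ℕ) : nu t p = NN (fun i => (t i : ZMod p)) := by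
  classical
  unfold nu NN
  have h1 : (univ.image fun i => t i % p) = (univ.image fun i => (t i : ZMod p)).image ZMod.val := by
    rw [Finset.image_image]
    apply Finset.image_congr
    intro i _
    simp only [Function.comp]
    rw [ZMod.val_natCast]
  rw [h1, Finset.card_image_of_injective _ (ZMod.val_injective p)]

theorem nuS_eq {K : ℕ} (a : Fin K → ℤ) (s : Fin K → ℕ) : nuS a s p =
    (univ.filter fun x : ZMod p => x = 0 ∨ ∃ i, (a i : ZMod p) * x + (s i : ZMod p) = 0).card := by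
  classical
  unfold nuS
  have hiff : ∀ n : ℕ, n < p → ((n = 0 ∨ ∃ i, (p : ℤ) ∣ a i * n + s i) ↔
      ((n : ZMod p) = 0 ∨ ∃ i, (a i : ZMod p) * (n : ZMod p) + (s i : ZMod p) = 0)) := by
    intro n hn
    have h1 : n = 0 ↔ (n : ZMod p) = 0 := by
      rw [ZMod.natCast_eq_zero_iff]
      constructor
      · rintro rfl
        exact dvd_zero _
      · intro h
        exact Nat.eq_zero_of_dvd_of_lt h hn
    have h2 : ∀ i, (p : ℤ) ∣ a i * n + s i ↔ (a i : ZMod p) * (n : ZMod p) + (s i : ZMod p) = 0 := by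
      intro i
      rw [← ZMod.intCast_zmod_eq_zero_iff_dvd]
      push_cast
      exact Iff.rfl
    rw [h1]
    simp only [h2]
  refine Finset.card_bij (fun n _ => (n : ZMod p)) ?_ ?_ ?_
  · intro n hn
    rw [Finset.mem_filter, Finset.mem_range] at hn
    rw [Finset.mem_filter]
    exact ⟨Finset.mem_univ _, (hiff n hn.1).1 hn.2⟩
  · intro n hn m hm h
    rw [Finset.mem_filter, Finset.mem_range] at hn hm
    have h1 := congrArg ZMod.val h
    rwa [ZMod.val_natCast, ZMod.val_natCast, Nat.mod_eq_of_lt hn.1, Nat.mod_eq_of_lt hm.1] at h1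
  · intro x hx
    rw [Finset.mem_filter] at hx
    refine ⟨x.val, ?_, ?_⟩
    · rw [Finset.mem_filter, Finset.mem_range]
      refine ⟨ZMod.val_lt x, ?_⟩
      rw [hiff _ (ZMod.val_lt x), ZMod.natCast_zmod_val]
      exact hx.2
    · exact ZMod.natCast_zmod_val x

/-- translation of all coordinates -/
theorem sum_cons (K : ℕ) (F : ℕ → ℝ) : ∑ T : Fin (K + 1) → ZMod p, F (NN T) =
    p * ∑ R : Fin K → ZMod p, F (NN (Fin.insertNth 0 0 R : Fin (K + 1) → ZMod p)) := by
  classical
  rw [← (Fin.insertNthEquiv (fun _ => ZMod p) 0).sum_comp (fun T => F (NN T)), Fintype.sum_prod_type]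
  have h1 : ∀ β : ZMod p, ∑ c : Fin K → ZMod p, F (NN (Fin.insertNthEquiv (fun _ => ZMod p) 0 (β, c))) =
      ∑ R : Fin K → ZMod p, F (NN (Fin.insertNth 0 0 R : Fin (K + 1) → ZMod p)) := by
    intro β
    rw [← Equiv.sum_comp (Equiv.addRight (fun _ : Fin K => β))
      (fun c => F (NN (Fin.insertNthEquiv (fun _ => ZMod p) 0 (β, c))))]
    refine Finset.sum_congr rfl fun R _ => ?_
    congr 1
    unfold NN
    have h2 : (univ.image (Fin.insertNthEquiv (fun _ => ZMod p) 0 (β, Equiv.addRight (fun _ : Fin K => β) R) :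
        Fin (K + 1) → ZMod p)) =
        (univ.image (Fin.insertNth 0 0 R : Fin (K + 1) → ZMod p)).image (fun x => x + β) := by
      rw [Finset.image_image]
      apply Finset.image_congr
      intro i _
      simp only [Function.comp, Fin.insertNthEquiv_apply]
      refine Fin.cases ?_ (fun j => ?_) i
      · simp
      · simp
    rw [h2, Finset.card_image_of_injective _ (add_left_injective β)]
  rw [Finset.sum_congr rfl fun β _ => h1 β, Finset.sum_const, Finset.card_univ, ZMod.card, nsmul_eq_mul]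

/-- the roots -/
theorem sum_roots {K : ℕ} (a : Fin K → ℤ) (ha : ∀ i, ¬ (p : ℤ) ∣ a i) (F : ℕ → ℝ) :
    ∑ s ∈ Fintype.piFinset (fun _ : Fin K => range p), F (nuS a s p) =
      ∑ R : Fin K → ZMod p, F (NN (Fin.insertNth 0 0 R : Fin (K + 1) → ZMod p)) := by
  classical
  have h0 : ∀ i, (a i : ZMod p) ≠ 0 := by
    intro i h
    exact ha i ((ZMod.intCast_zmod_eq_zero_iff_dvd _ _).1 h)
  have h1 := sum_range (p := p) K (fun S =>
    F (univ.filter fun x : ZMod p => x = 0 ∨ ∃ i, (a i : ZMod p) * x + S i = 0).card)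
  have h2 : ∑ s ∈ Fintype.piFinset (fun _ : Fin K => range p), F (nuS a s p) =
      ∑ S : Fin K → ZMod p, F (univ.filter fun x : ZMod p => x = 0 ∨ ∃ i, (a i : ZMod p) * x + S i = 0).card := by
    rw [← h1]
    exact Finset.sum_congr rfl fun s _ => by rw [nuS_eq]
  rw [h2]
  have hinj : Function.Injective (fun (R : Fin K → ZMod p) (i : Fin K) => -((a i : ZMod p) * R i)) := by
    intro R R' h
    funext i
    have h3 := congrFun h i
    simp only [neg_inj] at h3
    exact mul_left_cancel₀ (h0 i) h3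
  have hbij := Finite.injective_iff_bijective.1 hinj
  rw [← hbij.sum_comp]
  refine Finset.sum_congr rfl fun R _ => ?_
  congr 1
  unfold NN
  congr 1
  ext x
  rw [Finset.mem_filter, Finset.mem_image]
  simp only [Finset.mem_univ, true_and]
  constructor
  · rintro (h | ⟨i, hi⟩)
    · exact ⟨0, by rw [h]; simp⟩
    · refine ⟨Fin.succ i, ?_⟩
      have h3 : (a i : ZMod p) * x = (a i : ZMod p) * R i := by linear_combination hi
      have h4 := mul_left_cancel₀ (h0 i) h3
      rw [h4]
      simp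
  · rintro ⟨i, hi⟩
    revert hi
    refine Fin.cases ?_ (fun j => ?_) i
    · intro hi
      left
      rw [← hi]
      simp
    · intro hi
      right
      refine ⟨j, ?_⟩
      have h3 : R j = x := by simpa using hi
      rw [h3]
      ring

/-- job LMS -/
theorem t_LMS : S_LMS := by
  classical
  intro hLM p K a hp hpK ha
  have : Fact p.Prime := ⟨hp⟩
  have hp0 : (0 : ℝ) < p := by exact_mod_cast hp.pos
  obtain ⟨h1, h2⟩ := hLM p (K + 1) hp hpK
  have key : ∀ F : ℕ → ℝ, ∑ t ∈ Fintype.piFinset (fun _ : Fin (K + 1) => range p), F (nu t p) =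
      p * ∑ s ∈ Fintype.piFinset (fun _ : Fin K => range p), F (nuS a s p) := by
    intro F
    rw [sum_roots a ha F, ← sum_cons K F, ← sum_range (p := p) (K + 1) (fun T => F (NN T))]
    exact Finset.sum_congr rfl fun t _ => by rw [nu_eq]
  have k1 := key (fun ν => (1 - (ν : ℝ) / p) / (1 - 1 / (p : ℝ)) ^ (K + 1) - 1)
  have k2 := key (fun ν => ((1 - (ν : ℝ) / p) / (1 - 1 / (p : ℝ)) ^ (K + 1) - 1) ^ 2)
  have e1 : ∑ t ∈ Fintype.piFinset (fun _ : Fin (K + 1) => range p),
      ((1 - (nu t p : ℝ) / p) / (1 - 1 / (p : ℝ)) ^ (K + 1) - 1) = 0 := h1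
  have e2 : ∑ t ∈ Fintype.piFinset (fun _ : Fin (K + 1) => range p),
      ((1 - (nu t p : ℝ) / p) / (1 - 1 / (p : ℝ)) ^ (K + 1) - 1) ^ 2 ≤
      8 * ((K + 1 : ℕ) : ℝ) ^ 2 / (p : ℝ) ^ 3 * (p : ℝ) ^ (K + 1) := h2
  rw [k1] at e1
  rw [k2] at e2
  constructor
  · exact (mul_eq_zero.1 e1).resolve_left hp0.ne'
  · have h3 : (p : ℝ) * ∑ s ∈ Fintype.piFinset (fun _ : Fin K => range p), (locS a s p - 1) ^ 2 ≤
        p * (8 * ((K : ℝ) + 1) ^ 2 / (p : ℝ) ^ 3 * (p : ℝ) ^ K) := by
      refine e2.trans (le_of_eq ?_)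
      push_cast
      ring
    exact le_of_mul_le_mul_left h3 hp0

end Pool.Agent.Q211.LS.Lms
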