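import Pool.Agent.Q145.LS.Stm
import Pool.Agent.Q58.SZ.Cls

/-!
# Project LS (helper145), job TRANSS: from the classes to all admissible constants

Adapted from `Pool/Agent/Q58/SZ/Trans.lean`.
-/

set_option autoImplicit false
set_option linter.unusedSectionVars false

namespace Pool.Agent.Q211.LS.Tr

open Finset Filter Pool.Agent.Q145.SZ Pool.Agent.Q145.LS
open Pool.Agent.Q58.SZ (count_mod)

section

variable {W : ℕ} [NeZero W]

theorem bcl_eq (X : ℕ) (a : ℤ) (β : ZMod W) :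
    bcl X a β = (Ioc (lo X a) (lo X a + a.natAbs * X)).filter fun x => x ≡ β.val [MOD W] := by
  unfold bcl bx
  ext n
  simp only [Finset.mem_filter]
  have : ((n : ZMod W) = β) ↔ n ≡ β.val [MOD W] := by
    conv_lhs => rw [← ZMod.natCast_zmod_val β]
    exact ZMod.natCast_eq_natCast_iff _ _ _
  rw [this]

theorem card_bcl (X : ℕ) (a : ℤ) (β : ZMod W) :
    |((bcl X a β).card : ℝ) - ((a.natAbs * X : ℕ) : ℝ) / W| ≤ 1 := by
  have := count_mod (lo X a) (lo X a + a.natAbs * X) (Nat.le_add_right _ _)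
    (Nat.pos_of_ne_zero (NeZero.ne W)) β.val
  rw [bcl_eq]
  have e : (((lo X a + a.natAbs * X : ℕ) : ℝ) - (lo X a : ℝ)) = ((a.natAbs * X : ℕ) : ℝ) := by
    push_cast
    ring
  rw [e] at this
  exact this

theorem card_SbS {K : ℕ} (X : ℕ) (a : Fin K → ℤ) (b : Fin K → ZMod W) :
    ((SbS X a b).card : ℝ) = ∏ i, ((bcl X (a i) (b i)).card : ℝ) := by
  unfold SbS
  rw [Fintype.card_piFinset]
  push_cast
  rfl

theorem mem_SbS {K : ℕ} {X : ℕ} {a : Fin K → ℤ} {b : Fin K → ZMod W} {s : Fin K → ℕ} :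
    s ∈ SbS X a b ↔ (∀ i, s i ∈ bx X (a i)) ∧ (fun i => (s i : ZMod W)) = b := by
  unfold SbS bcl
  rw [Fintype.mem_piFinset]
  simp only [Finset.mem_filter]
  constructor
  · intro h
    exact ⟨fun i => (h i).1, funext fun i => (h i).2⟩
  · rintro ⟨h1, h2⟩ i
    exact ⟨h1 i, congrFun h2 i⟩

end

theorem ratio_prod {K : ℕ} {Y : ℝ} {y : Fin K → ℝ} (hY : 8 * ((K : ℝ) + 1) ≤ Y) (hy : ∀ i, Y ≤ y i) :
    ∏ i, (y i + 1) ≤ 2 * ∏ i, (y i - 1) := by
  have hK : (0 : ℝ) ≤ K := Nat.cast_nonneg K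
  have h1 : 0 < Y - 1 := by linarith
  have h2 : ∀ i, y i + 1 ≤ (y i - 1) * Real.exp (2 / (Y - 1)) := by
    intro i
    have h3 : 0 < y i - 1 := by linarith [hy i]
    have h4 := Real.add_one_le_exp (2 / (Y - 1))
    have h5 : 2 ≤ (y i - 1) * (2 / (Y - 1)) := by
      rw [mul_div_assoc', le_div_iff₀ h1]
      linarith [hy i]
    nlinarith [mul_le_mul_of_nonneg_left h4 h3.le]
  have h3 : ∏ i, (y i + 1) ≤ ∏ i, ((y i - 1) * Real.exp (2 / (Y - 1))) :=
    Finset.prod_le_prod (fun i _ => by linarith [hy i]) fun i _ => h2 i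
  have h4 : Real.exp (2 / (Y - 1)) ^ K ≤ 2 := by
    calc Real.exp (2 / (Y - 1)) ^ K = Real.exp (K * (2 / (Y - 1))) := by rw [← Real.exp_nat_mul]
      _ ≤ Real.exp (1 / 2) := by
        apply Real.exp_le_exp.2
        rw [mul_div_assoc', div_le_iff₀ h1]
        linarith
      _ ≤ 2 := by
        have h4 := Real.exp_one_lt_d9
        have h5 : Real.exp (1 / 2) ^ 2 = Real.exp 1 := by
          rw [← Real.exp_nat_mul]
          norm_num
        have h6 := Real.exp_pos (1 / 2)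
        nlinarith
  have h5 : 0 ≤ ∏ i, (y i - 1) := Finset.prod_nonneg fun i _ => by linarith [hy i]
  refine h3.trans ?_
  rw [Finset.prod_mul_distrib, Finset.prod_const, Finset.card_univ, Fintype.card_fin]
  nlinarith

open Classical in
/-- a sum over the admissible tuples -/
theorem sum_ATS (hM : S_MBSS) {z X K : ℕ} {a : Fin K → ℤ} (hK : K + 1 ≤ z)
    (ha : ∀ i, a i ≠ 0 ∧ (a i).natAbs ≤ z) (E : (Fin K → ℕ) → Prop) :
    (((ATS X a).filter fun s => E s).card : ℝ) =
      ∑ b ∈ AdW (um (PW z) a), (((SbS X a b).filter fun s => E s).card : ℝ) := by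
  rw [← Nat.cast_sum, ← Finset.card_biUnion]
  · congr 2
    ext s
    simp only [Finset.mem_filter, Finset.mem_biUnion, ATS, Fintype.mem_piFinset,
      AdW, Finset.mem_univ, true_and, mem_SbS]
    constructor
    · rintro ⟨⟨h1, h2⟩, h3⟩
      exact ⟨_, ((hM z X K a s).2 hK ha).1 h2, ⟨h1, rfl⟩, h3⟩
    · rintro ⟨b, hb, ⟨h1, rfl⟩, h3⟩
      exact ⟨⟨h1, ((hM z X K a s).2 hK ha).2 hb⟩, h3⟩
  · intro b _ b' _ hbb'
    rw [Function.onFun, Finset.disjoint_left]
    intro s hs hs'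
    rw [Finset.mem_filter, mem_SbS] at hs hs'
    exact hbb' (hs.1.2.symm.trans hs'.1.2)

/-- job TRANSS -/
theorem t_TRANSS : S_TRANSS := by
  classical
  intro hM z X K a E η hK ha hX h
  have hW : (0 : ℝ) < PW z := by exact_mod_cast Nat.pos_of_ne_zero (NeZero.ne (PW z))
  set Y : ℝ := (X : ℝ) / PW z with hYdef
  have hY : 8 * ((K : ℝ) + 1) ≤ Y := by
    rw [hYdef, le_div_iff₀ hW]
    exact_mod_cast hX
  have hK0 : (0 : ℝ) ≤ K := Nat.cast_nonneg K
  set y : Fin K → ℝ := fun i => (((a i).natAbs * X : ℕ) : ℝ) / PW z with hy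
  have hyY : ∀ i, Y ≤ y i := by
    intro i
    rw [hYdef, hy]
    apply div_le_div_of_nonneg_right _ hW.le
    have h1 : 1 ≤ (a i).natAbs := Nat.one_le_iff_ne_zero.2 (Int.natAbs_ne_zero.2 (ha i).1)
    have h2 : 1 * X ≤ (a i).natAbs * X := Nat.mul_le_mul_right _ h1
    rw [one_mul] at h2
    exact_mod_cast h2
  have hratio := ratio_prod hY hyY
  set B : ℝ := ∏ i, (y i + 1) with hB
  set A : ℝ := ∏ i, (y i - 1) with hA
  have hA0 : 0 < A := Finset.prod_pos fun i _ => by linarith [hyY i]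
  have hB0 : 0 < B := Finset.prod_pos fun i _ => by linarith [hyY i]
  have hSle : ∀ b : Fin K → ZMod (PW z), ((SbS X a b).card : ℝ) ≤ B := by
    intro b
    rw [card_SbS]
    refine Finset.prod_le_prod (fun _ _ => Nat.cast_nonneg _) fun i _ => ?_
    have := (abs_le.1 (card_bcl X (a i) (b i))).2
    rw [hy]
    linarith
  have hSge : ∀ b : Fin K → ZMod (PW z), A ≤ ((SbS X a b).card : ℝ) := by
    intro b
    rw [card_SbS]
    refine Finset.prod_le_prod (fun i _ => by linarith [hyY i]) fun i _ => ?_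
    have := (abs_le.1 (card_bcl X (a i) (b i))).1
    rw [hy]
    linarith
  have h0 : 0 ≤ η * (AdW (um (PW z) a)).card :=
    le_trans (Finset.sum_nonneg fun b _ => by positivity) h
  have h1 : (((ATS X a).filter fun s => E s).card : ℝ) ≤ B * (η * (AdW (um (PW z) a)).card) := by
    rw [sum_ATS hM hK ha E]
    refine le_trans ?_ (mul_le_mul_of_nonneg_left h hB0.le)
    rw [Finset.mul_sum]
    refine Finset.sum_le_sum fun b _ => ?_
    have hSpos : (0 : ℝ) < (SbS X a b).card := lt_of_lt_of_le hA0 (hSge b)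
    rw [mul_div_assoc', le_div_iff₀ hSpos, mul_comm]
    exact mul_le_mul_of_nonneg_right (hSle b) (Nat.cast_nonneg _)
  have e1 := sum_ATS hM (X := X) hK ha (fun _ => True)
  simp only [Finset.filter_true] at e1
  have h2 : A * (AdW (um (PW z) a)).card ≤ ((ATS X a).card : ℝ) := by
    rw [e1]
    calc A * (AdW (um (PW z) a)).card = ∑ _b ∈ AdW (um (PW z) a), A := by
          rw [Finset.sum_const, nsmul_eq_mul, mul_comm]
      _ ≤ ∑ b ∈ AdW (um (PW z) a), ((SbS X a b).card : ℝ) :=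
        Finset.sum_le_sum fun b _ => hSge b
  by_cases hη : 0 ≤ η
  · calc (((ATS X a).filter fun s => E s).card : ℝ)
        ≤ B * (η * (AdW (um (PW z) a)).card) := h1
      _ ≤ 2 * A * (η * (AdW (um (PW z) a)).card) := mul_le_mul_of_nonneg_right hratio h0
      _ = 2 * η * (A * (AdW (um (PW z) a)).card) := by ring
      _ ≤ 2 * η * (ATS X a).card := mul_le_mul_of_nonneg_left h2 (by linarith)
  · push Not at hη
    have hAd : ((AdW (um (PW z) a)).card : ℝ) = 0 := by
      have h3 : (0 : ℝ) ≤ (AdW (um (PW z) a)).card := Nat.cast_nonneg _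
      nlinarith
    have hAT : ((ATS X a).card : ℝ) = 0 := by
      rw [e1]
      have : AdW (um (PW z) a) = ∅ := by
        rw [← Finset.card_eq_zero]
        exact_mod_cast hAd
      rw [this, Finset.sum_empty]
    rw [hAT, mul_zero]
    have h4 : (((ATS X a).filter fun s => E s).card : ℝ) ≤ (ATS X a).card := by
      exact_mod_cast Finset.card_filter_le _ _
    linarith

end Pool.Agent.Q211.LS.Tr
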